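import Pool.Agent.H74.OLP.Targets

/-!
# FRM: consistent choice of the two sides of a path
-/

set_option autoImplicit false

open Finset Pool.Agent.H74.OLP
open scoped Classical

namespace Pool.Agent.H88.OLP

theorem arcs_swap {F : Type} {T : SimpleGraph F} {f x y : F} {p : ℕ} {c : ℕ → F} {q : ℕ}
    {r : ℕ → F} (h : Arcs T f x y p c q r) : Arcs T f x y q r p c where
  hp := h.hq
  hq := h.hp
  hpq := by have := h.hpq; omega
  all := by
    intro g
    rw [h.all g]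
    constructor
    · rintro (h1 | h1 | h1 | h1)
      · exact Or.inl h1
      · exact Or.inr (Or.inl h1)
      · exact Or.inr (Or.inr (Or.inr h1))
      · exact Or.inr (Or.inr (Or.inl h1))
    · rintro (h1 | h1 | h1 | h1)
      · exact Or.inl h1
      · exact Or.inr (Or.inl h1)
      · exact Or.inr (Or.inr (Or.inr h1))
      · exact Or.inr (Or.inr (Or.inl h1))
  ci := h.ri
  cc := h.rr
  cx := h.rx
  cy := h.ry
  nx := h.mx
  ny := h.my
  ri := h.ci
  rr := h.cc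
  rx := h.cx
  ry := h.cy
  mx := h.nx
  my := h.ny
  cr := by
    intro i j hi hi' hj hj'
    obtain ⟨h1, h2⟩ := h.cr j i hj hj' hi hi'
    exact ⟨fun h3 => h1 h3.symm, fun h3 => h2 h3.symm⟩

/-- consecutive links -/
theorem arcs_link {F : Type} {T : SimpleGraph F} {w x y v : F} {p q p' q' : ℕ}
    {c r c' r' : ℕ → F} (h : Arcs T x w y p c q r) (h' : Arcs T y x v p' c' q' r')
    (hv : ¬ T.Adj x v) :
    (c p = c' 1 ∧ r q = r' 1) ∨ (c p = r' 1 ∧ r q = c' 1) := by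
  have key : ∀ g, T.Adj x g → T.Adj y g → g = c' 1 ∨ g = r' 1 := by
    intro g h1 h2
    rcases (h'.all g).1 h2 with h3 | h3 | ⟨j, hj, hj', h3⟩ | ⟨j, hj, hj', h3⟩
    · rw [h3] at h1
      exact absurd h1 (T.irrefl)
    · rw [h3] at h1
      exact absurd h1 hv
    · rw [h3] at h1
      rw [(h'.cx j hj hj').1 h1] at h3
      exact Or.inl h3
    · rw [h3] at h1
      rw [(h'.rx j hj hj').1 h1] at h3
      exact Or.inr h3
  have hA := key (c p) ((h.all _).2 (Or.inr (Or.inr (Or.inl ⟨p, h.hp, le_rfl, rfl⟩))))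
    ((h.cy p h.hp le_rfl).2 rfl)
  have hB := key (r q) ((h.all _).2 (Or.inr (Or.inr (Or.inr ⟨q, h.hq, le_rfl, rfl⟩))))
    ((h.ry q h.hq le_rfl).2 rfl)
  have hne := (h.cr p q h.hp le_rfl h.hq le_rfl).2
  rcases hA with hA | hA <;> rcases hB with hB | hB
  · exact absurd (hA.trans hB.symm) hne
  · exact Or.inl ⟨hA, hB⟩
  · exact Or.inr ⟨hA, hB⟩
  · exact absurd (hA.trans hB.symm) hne

theorem side_of {F : Type} {T : SimpleGraph F} {L : ℕ} {z : ℕ → F} {p q : ℕ → ℕ}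
    {c r : ℕ → ℕ → F}
    (h : ∀ i, 1 ≤ i → i < L → Arcs T (z i) (z (i - 1)) (z (i + 1)) (p i) (c i) (q i) (r i))
    (hl : ∀ i, 1 ≤ i → i + 1 < L → c i (p i) = c (i + 1) 1) : Side T L z p c where
  pos := fun i h1 h2 => (h i h1 h2).hp
  adj := fun i j h1 h2 h3 h4 =>
    ((h i h1 h2).all _).2 (Or.inr (Or.inr (Or.inl ⟨j, h3, h4, rfl⟩)))
  ci := fun i j k h1 h2 h3 h4 h5 h6 h7 => (h i h1 h2).ci j k h3 h4 h5 h6 h7
  cc := fun i j k h1 h2 h3 h4 h5 h6 => (h i h1 h2).cc j k h3 h4 h5 h6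
  cx := fun i j h1 h2 h3 h4 => (h i h1 h2).cx j h3 h4
  cy := fun i j h1 h2 h3 h4 => (h i h1 h2).cy j h3 h4
  nx := fun i j h1 h2 h3 h4 => (h i h1 h2).nx j h3 h4
  ny := fun i j h1 h2 h3 h4 => (h i h1 h2).ny j h3 h4
  lk := hl

theorem pf_FRM : T_FRM := by
  intro F T L z hP h
  have hF : Nonempty F := ⟨z 0⟩
  choose! p c q r hA using h
  -- crossing
  let X : ℕ → Prop := fun i => ¬ (c i (p i) = c (i + 1) 1 ∧ r i (q i) = r (i + 1) 1)
  have hX : ∀ i, 1 ≤ i → i + 1 < L → X i → c i (p i) = r (i + 1) 1 ∧ r i (q i) = c (i + 1) 1 := by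
    intro i h1 h2 h3
    rcases arcs_link (hA i h1 (by omega)) (hA (i + 1) (by omega) h2) (by
      intro h4
      rcases (hP.adj i (i + 1 + 1) (by omega) (by omega)).1 h4 with h5 | h5 <;> omega) with h4 | h4
    · exact absurd h4 h3
    · exact h4
  let b : ℕ → Bool := fun i => Nat.rec (motive := fun _ => Bool) false (fun i b => if X i then !b else b) i
  have hb : ∀ i, b (i + 1) = if X i then !b i else b i := fun i => rfl
  let P' : ℕ → ℕ := fun i => if b i = true then q i else p i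
  let Q' : ℕ → ℕ := fun i => if b i = true then p i else q i
  let C' : ℕ → ℕ → F := fun i => if b i = true then r i else c i
  let R' : ℕ → ℕ → F := fun i => if b i = true then c i else r i
  have hcase : ∀ i, (P' i = p i ∧ Q' i = q i ∧ C' i = c i ∧ R' i = r i ∧ b i = false) ∨
      (P' i = q i ∧ Q' i = p i ∧ C' i = r i ∧ R' i = c i ∧ b i = true) := by
    intro i
    rcases hbi : b i with _ | _
    · left
      simp [P', Q', C', R', hbi]
    · right
      simp [P', Q', C', R', hbi]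
  have hA' : ∀ i, 1 ≤ i → i < L → Arcs T (z i) (z (i - 1)) (z (i + 1))
      (P' i) (C' i) (Q' i) (R' i) := by
    intro i h1 h2
    rcases hcase i with ⟨e1, e2, e3, e4, -⟩ | ⟨e1, e2, e3, e4, -⟩ <;> rw [e1, e2, e3, e4]
    · exact hA i h1 h2
    · exact arcs_swap (hA i h1 h2)
  have hl : ∀ i, 1 ≤ i → i + 1 < L → C' i (P' i) = C' (i + 1) 1 ∧ R' i (Q' i) = R' (i + 1) 1 := by
    intro i h1 h2
    by_cases hx : X i
    · have h3 := hX i h1 h2 hx
      have hbb := hb i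
      rw [if_pos hx] at hbb
      rcases hcase i with ⟨e1, e2, e3, e4, e5⟩ | ⟨e1, e2, e3, e4, e5⟩ <;>
        rcases hcase (i + 1) with ⟨f1, f2, f3, f4, f5⟩ | ⟨f1, f2, f3, f4, f5⟩
      · rw [e5, f5] at hbb; exact absurd hbb (by decide)
      · rw [e1, e2, e3, e4, f3, f4]; exact h3
      · rw [e1, e2, e3, e4, f3, f4]; exact ⟨h3.2, h3.1⟩
      · rw [e5, f5] at hbb; exact absurd hbb (by decide)
    · have h3 : c i (p i) = c (i + 1) 1 ∧ r i (q i) = r (i + 1) 1 := not_not.1 hx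
      have hbb := hb i
      rw [if_neg hx] at hbb
      rcases hcase i with ⟨e1, e2, e3, e4, e5⟩ | ⟨e1, e2, e3, e4, e5⟩ <;>
        rcases hcase (i + 1) with ⟨f1, f2, f3, f4, f5⟩ | ⟨f1, f2, f3, f4, f5⟩
      · rw [e1, e2, e3, e4, f3, f4]; exact h3
      · rw [e5, f5] at hbb; exact absurd hbb (by decide)
      · rw [e5, f5] at hbb; exact absurd hbb (by decide)
      · rw [e1, e2, e3, e4, f3, f4]; exact ⟨h3.2, h3.1⟩
  exact ⟨P', C', Q', R', side_of hA' fun i h1 h2 => (hl i h1 h2).1,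
    side_of (fun i h1 h2 => arcs_swap (hA' i h1 h2)) fun i h1 h2 => (hl i h1 h2).2,
    fun i h1 h2 => (hA' i h1 h2).hpq,
    fun i j k h1 h2 h3 h4 h5 h6 => (hA' i h1 h2).cr j k h3 h4 h5 h6⟩

end Pool.Agent.H88.OLP
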