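import Pool.Agent.H74.OLP.Targets

/-!
# GDS: adding the minimal walk
-/

set_option autoImplicit false

open Finset Pool.Agent.H74.OLP
open scoped Classical

namespace Pool.Agent.H88.OLP

theorem e1 : ∀ a b c d : R, a + b = c + d → b = (c + a) + d := by decide

theorem e2 : ∀ x a b c d : R, x + b = c + d → a + b = c + x → d = a := by decide

theorem e3 : ∀ a b c d q : R, a + q + b = c + d → q = (c + a) + (d + b) := by decide

theorem e4 : ∀ q f g a : R, q + f = 0 → q = (g + a) + (g + (a + f)) := by decide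

/-- two formulas for the potential -/
theorem e5 : ∀ a b c d : R, a + b = c + d → c + a = d + b := by decide

theorem pf_GDS (h1 : T_EXT) (h2 : T_GEO) : T_GDS := by
  intro F T D ω w t t' S g z m hSh hω htt hw hMn hpot hg
  obtain ⟨hA, hB, -⟩ := h2 F T ω S z m hω hMn
  have hwf : ∀ i, i < m → T.Adj (z i) (z (i + 1)) := hMn.wf
  have hSy : Sy D := hSh.1
  have SS : ∀ x ∈ S, ∀ y ∈ S, ∀ p : T.Walk x y, p.length ≤ 2 * t + 1 →
      ws T D p = g x + g y := by
    intro x hx y hy p hp
    exact pot_walk T hpot p (Nb_ends T hx hy p hp)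
  have hγ : ∀ i, i ≤ m → g (z 0) + fs D z 0 i = g (z m) + fs D z i m := by
    intro i hi
    apply e5
    rw [← fs_split D z (Nat.zero_le i) hi, hg]
  have C2 : ∀ i, i ≤ m → ∀ s ∈ S, ∀ q : T.Walk (z i) s, q.length ≤ t →
      ws T D q = (g (z 0) + fs D z 0 i) + g s := by
    intro i hi s hs q hq
    rcases hA i hi s hs q with h | h
    · obtain ⟨p, hp1, hp2, -⟩ := seg T z 0 i (Nat.zero_le _) fun l _ hl => hwf l (by omega)
      have h3 := SS _ hMn.z0 s hs (p.append q) (by
        rw [SimpleGraph.Walk.length_append, hp1]; omega)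
      rw [ws_append, hp2] at h3
      exact e1 _ _ _ _ h3
    · obtain ⟨p, hp1, hp2, -⟩ := seg T z i m hi fun l _ hl => hwf l (by omega)
      have h3 := SS _ hMn.zm s hs (p.reverse.append q) (by
        rw [SimpleGraph.Walk.length_append, SimpleGraph.Walk.length_reverse, hp1]; omega)
      rw [ws_append, ws_reverse T hSy, hp2] at h3
      rw [hγ i hi]
      exact e1 _ _ _ _ h3
  have C3 : ∀ i j, i ≤ j → j ≤ m → ∀ q : T.Walk (z i) (z j), q.length ≤ t →
      ws T D q = (g (z 0) + fs D z 0 i) + (g (z 0) + fs D z 0 j) := by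
    intro i j hij hj q hq
    rcases hB i j hij hj q with h | h
    · obtain ⟨p, hp1, hp2, -⟩ := seg T z i j hij fun l _ hl => hwf l (by omega)
      have h3 := hSh.2 _ (q.append p.reverse) (by
        rw [SimpleGraph.Walk.length_append, SimpleGraph.Walk.length_reverse, hp1]; omega)
      rw [ws_append, ws_reverse T hSy, hp2] at h3
      rw [fs_split D z (Nat.zero_le i) hij]
      exact e4 _ _ _ _ h3
    · obtain ⟨p, hp1, hp2, -⟩ := seg T z 0 i (Nat.zero_le _) fun l _ hl => hwf l (by omega)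
      obtain ⟨p', hp1', hp2', -⟩ := seg T z j m hj fun l _ hl => hwf l (by omega)
      have h3 := SS _ hMn.z0 _ hMn.zm ((p.append q).append p') (by
        rw [SimpleGraph.Walk.length_append, SimpleGraph.Walk.length_append, hp1, hp1']; omega)
      rw [ws_append, ws_append, hp2, hp2'] at h3
      rw [hγ j hj]
      exact e3 _ _ _ _ _ h3
  have C2' : ∀ s ∈ S, ∀ i, i ≤ m → ∀ q : T.Walk s (z i), q.length ≤ t →
      ws T D q = g s + (g (z 0) + fs D z 0 i) := by
    intro s hs i hi q hq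
    have h3 := C2 i hi s hs q.reverse (by rw [SimpleGraph.Walk.length_reverse]; exact hq)
    rw [ws_reverse T hSy] at h3
    rw [h3, add_comm]
  have C3' : ∀ i j, i ≤ m → j ≤ m → ∀ q : T.Walk (z i) (z j), q.length ≤ t →
      ws T D q = (g (z 0) + fs D z 0 i) + (g (z 0) + fs D z 0 j) := by
    intro i j hi hj q hq
    rcases le_total i j with hij | hij
    · exact C3 i j hij hj q hq
    · have h3 := C3 j i hij hi q.reverse (by rw [SimpleGraph.Walk.length_reverse]; exact hq)
      rw [ws_reverse T hSy] at h3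
      rw [h3, add_comm]
  let pp : S ⊕ {i : ℕ // i ≤ m} → F := Sum.elim (fun s => s.1) fun i => z i.1
  let γ : S ⊕ {i : ℕ // i ≤ m} → R := Sum.elim (fun s => g s.1) fun i => g (z 0) + fs D z 0 i.1
  have htt' : 2 * t' + 1 ≤ 2 * t + 1 := by omega
  obtain ⟨g', hg', -⟩ := h1 F T D (S ⊕ {i : ℕ // i ≤ m}) pp γ t' hSy (by
    rintro (a | a) (b | b) Q hQ
    · exact SS _ a.2 _ b.2 Q (hQ.trans htt')
    · exact C2' _ a.2 b.1 b.2 Q (hQ.trans htt)
    · exact C2 a.1 a.2 b.1 b.2 Q (hQ.trans htt)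
    · exact C3' a.1 b.1 a.2 b.2 Q (hQ.trans htt))
  have hr : Set.range pp = S ∪ Im z m := by
    ext x
    constructor
    · rintro ⟨a | a, rfl⟩
      · exact Or.inl a.2
      · exact Or.inr ⟨a.1, a.2, rfl⟩
    · rintro (hx | ⟨i, hi, rfl⟩)
      · exact ⟨Sum.inl ⟨x, hx⟩, rfl⟩
      · exact ⟨Sum.inr ⟨i, hi⟩, rfl⟩
  rw [hr] at hg'
  exact null_of_pot T hg'

end Pool.Agent.H88.OLP
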